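import Mathlib

/-!
The countable fan with its satellites, its metrizable topology, and the action on it of the
countable power of a discrete group.
-/

namespace H139FS

open Set Filter Topology

/-- The points of the fan. -/
inductive Pt : Type
  | center : Pt
  | bar (n k : ℕ) : Pt
  | sat (n k j : ℕ) (b : ZMod 2) : Pt
  deriving DecidableEq

instance : TopologicalSpace Pt := ⊥
instance : DiscreteTopology Pt := ⟨rfl⟩

/-- The finite-level truncations of the fan. -/
def trunc (M : ℕ) : Pt → Pt
  | .center => .center
  | .bar n k => if k < M then .bar n k else .center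
  | .sat n k j b =>
      if k + b.val < M then (if j < M then .sat n k j b else .bar n (k + b.val)) else .center

/-- The fan: the points, with the topology of convergence of all truncations. -/
@[ext] structure Fan : Type where
  pt : Pt

def Fan.emb (x : Fan) : ℕ → Pt := fun M => trunc M x.pt

instance : TopologicalSpace Fan := TopologicalSpace.induced Fan.emb inferInstance

theorem trunc_large (x : Pt) : ∃ M, ∀ M' ≥ M, trunc M' x = x := by
  cases x with
  | center => exact ⟨0, fun _ _ => rfl⟩
  | bar n k => 
    refine ⟨k + 1, fun M' h => ?_⟩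
    simp only [trunc]
    rw [if_pos (by omega)]
  | sat n k j b =>
    refine ⟨k + b.val + j + 1, fun M' h => ?_⟩
    simp only [trunc]
    rw [if_pos (by omega), if_pos (by omega)]

theorem trunc_trunc {M M' : ℕ} (h : M ≤ M') (x : Pt) : trunc M (trunc M' x) = trunc M x := by
  cases x with
  | center => rfl
  | bar n k =>
    by_cases hk : k < M'
    · simp [trunc, hk]
    · have : ¬ k < M := by omega
      simp [trunc, hk, this]
  | sat n k j b =>
    by_cases hk : k + b.val < M'
    · by_cases hj : j < M'
      · simp [trunc, hk, hj]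
      · have : ¬ j < M := by omega
        simp [trunc, hk, hj, this]
    · have : ¬ k + b.val < M := by omega
      simp [trunc, hk, this]

theorem Fan.emb_injective : Function.Injective Fan.emb := by
  intro x y h
  obtain ⟨M, hM⟩ := trunc_large x.pt
  obtain ⟨M', hM'⟩ := trunc_large y.pt
  have := congrFun h (max M M')
  simp only [Fan.emb] at this
  rw [hM _ (le_max_left _ _), hM' _ (le_max_right _ _)] at this
  exact Fan.ext this

theorem Fan.isEmbedding_emb : IsEmbedding Fan.emb := ⟨⟨rfl⟩, Fan.emb_injective⟩

instance : TopologicalSpace.MetrizableSpace Fan := Fan.isEmbedding_emb.metrizableSpace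

theorem continuous_to_fan {Z : Type*} [TopologicalSpace Z] {f : Z → Fan}
    (h : ∀ M z, ∀ᶠ z' in 𝓝 z, trunc M (f z').pt = trunc M (f z).pt) : Continuous f := by
  rw [Fan.isEmbedding_emb.continuous_iff, continuous_pi_iff]
  intro M
  rw [continuous_iff_continuousAt]
  intro z
  unfold ContinuousAt
  rw [nhds_discrete Pt, tendsto_pure]
  exact h M z

theorem tendsto_to_fan {Z : Type*} {l : Filter Z} {f : Z → Fan} {x : Fan}
    (h : ∀ M, ∀ᶠ z' in l, trunc M (f z').pt = trunc M x.pt) : Tendsto f l (𝓝 x) := by
  rw [Fan.isEmbedding_emb.tendsto_nhds_iff, tendsto_pi_nhds]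
  intro M
  rw [nhds_discrete Pt, tendsto_pure]
  exact h M

theorem continuous_trunc (M : ℕ) : Continuous fun x : Fan => trunc M x.pt :=
  (continuous_apply M).comp Fan.isEmbedding_emb.continuous

theorem eventually_trunc (M : ℕ) (x : Fan) : ∀ᶠ y in 𝓝 x, trunc M y.pt = trunc M x.pt := by
  have h := (continuous_trunc M).continuousAt (x := x)
  unfold ContinuousAt at h
  rw [nhds_discrete Pt, tendsto_pure] at h
  exact h

/-- The discrete group of finitely supported sequences in `ZMod 2`. -/
def Hd : Type := Multiplicative (ℕ →₀ ZMod 2)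

noncomputable instance : CommGroup Hd := inferInstanceAs (CommGroup (Multiplicative (ℕ →₀ ZMod 2)))
instance : TopologicalSpace Hd := ⊥
instance : DiscreteTopology Hd := ⟨rfl⟩

/-- coordinates of an element of `Hd`. -/
def Hd.at (h : Hd) (j : ℕ) : ZMod 2 := (Multiplicative.toAdd (show Multiplicative (ℕ →₀ ZMod 2) from h)) j

theorem Hd.at_mul (g h : Hd) (j : ℕ) : (g * h).at j = g.at j + h.at j := by
  rfl

theorem Hd.at_one (j : ℕ) : (1 : Hd).at j = 0 := rfl

theorem Hd.at_large (h : Hd) : ∃ N, ∀ j ≥ N, h.at j = 0 := by
  let f : ℕ →₀ ZMod 2 := Multiplicative.toAdd (show Multiplicative (ℕ →₀ ZMod 2) from h)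
  refine ⟨f.support.sup id + 1, fun j hj => ?_⟩
  have : j ∉ f.support := by
    intro hj'
    have := Finset.le_sup (f := id) hj'
    simp only [id] at this
    omega
  exact Finsupp.notMem_support_iff.mp this

/-- the group acting on the fan. -/
abbrev Ag : Type := ℕ → Hd

def actPt (g : Ag) : Pt → Pt
  | .center => .center
  | .bar n k => .bar n k
  | .sat n k j b => .sat n k j (b + (g n).at j)

noncomputable instance : MulAction Ag Fan where
  smul g x := ⟨actPt g x.pt⟩
  one_smul x := by
    show (⟨actPt 1 x.pt⟩ : Fan) = x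
    rcases x with ⟨x⟩
    cases x <;> simp [actPt, Hd.at_one]
  mul_smul g h x := by
    show (⟨actPt (g * h) x.pt⟩ : Fan) = ⟨actPt g (actPt h x.pt)⟩
    rcases x with ⟨x⟩
    cases x <;> simp [actPt, Hd.at_mul]
    abel

theorem smul_pt (g : Ag) (x : Fan) : (g • x).pt = actPt g x.pt := rfl

theorem trunc_act_center {M : ℕ} (g : Ag) {x : Pt} (h : trunc (M + 1) x = .center) :
    trunc M (actPt g x) = .center := by
  cases x with
  | center => rfl
  | bar n k =>
    simp only [trunc] at h
    split_ifs at h with hk
    simp only [actPt, trunc]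
    rw [if_neg (by omega)]
  | sat n k j b =>
    simp only [trunc] at h
    split_ifs at h with hk
    simp only [actPt, trunc]
    have : b.val < 2 := ZMod.val_lt b
    rw [if_neg (by omega)]

theorem trunc_act_bar {M n k : ℕ} (g : Ag) {x : Pt} (h : trunc M x = .bar n k)
    (hg : ∀ j ≥ M, (g n).at j = 0) : actPt g x = x := by
  cases x with
  | center => rfl
  | bar n k => rfl
  | sat n' k' j' b' =>
    simp only [trunc] at h
    split_ifs at h with hk hj
    simp only [Pt.bar.injEq] at h
    simp only [actPt]
    rw [h.1, hg j' (by omega), add_zero]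

theorem trunc_eq_sat {M n k j : ℕ} {b : ZMod 2} {x : Pt} (h : trunc M x = .sat n k j b) :
    x = .sat n k j b := by
  cases x with
  | center => simp [trunc] at h
  | bar n k =>
    simp only [trunc] at h
    split_ifs at h
  | sat n' k' j' b' =>
    simp only [trunc] at h
    split_ifs at h with hk hj
    exact h

theorem eventually_coord (g : Ag) (n : ℕ) : ∀ᶠ g' in 𝓝 g, g' n = g n := by
  have h := (continuous_apply (A := fun _ : ℕ => Hd) n).continuousAt (x := g)
  unfold ContinuousAt at h
  rw [nhds_discrete Hd, tendsto_pure] at h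
  exact h

theorem eventually_snd {Z W : Type*} [TopologicalSpace Z] [TopologicalSpace W] {z : Z} {w : W}
    {P : W → Prop} (h : ∀ᶠ w' in 𝓝 w, P w') : ∀ᶠ p : Z × W in 𝓝 (z, w), P p.2 :=
  (continuous_snd.tendsto (z, w)).eventually h

theorem eventually_fst {Z W : Type*} [TopologicalSpace Z] [TopologicalSpace W] {z : Z} {w : W}
    {P : Z → Prop} (h : ∀ᶠ w' in 𝓝 z, P w') : ∀ᶠ p : Z × W in 𝓝 (z, w), P p.1 :=
  (continuous_fst.tendsto (z, w)).eventually h

instance : ContinuousSMul Ag Fan where
  continuous_smul := by
    apply continuous_to_fan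
    rintro M ⟨g, x⟩
    rcases x with ⟨x⟩
    simp only [smul_pt]
    cases x with
    | center =>
      have h1 : ∀ᶠ p : Ag × Fan in 𝓝 (g, ⟨.center⟩), trunc (M + 1) p.2.pt = .center :=
        eventually_snd (eventually_trunc (M + 1) ⟨.center⟩)
      filter_upwards [h1] with p hp
      exact trunc_act_center _ hp
    | bar n k =>
      obtain ⟨N, hN⟩ := (g n).at_large
      set M' := M + k + 1 + N with hM'
      have h1 : ∀ᶠ p : Ag × Fan in 𝓝 (g, ⟨.bar n k⟩), trunc M' p.2.pt = trunc M' (.bar n k) :=
        eventually_snd (eventually_trunc M' ⟨.bar n k⟩)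
      have h2 : ∀ᶠ p : Ag × Fan in 𝓝 (g, ⟨.bar n k⟩), p.1 n = g n :=
        eventually_fst (eventually_coord g n)
      filter_upwards [h1, h2] with p hp hp'
      have hb : trunc M' (.bar n k) = .bar n k := by
        simp only [trunc]
        rw [if_pos (by omega)]
      rw [hb] at hp
      rw [trunc_act_bar p.1 hp (fun j hj => by rw [hp']; exact hN j (by omega)),
        ← trunc_trunc (M := M) (M' := M') (by omega) p.2.pt, hp]
      rfl
    | sat n k j b =>
      set M' := k + b.val + j + 1 with hM'
      have h1 : ∀ᶠ p : Ag × Fan in 𝓝 (g, ⟨.sat n k j b⟩),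
          trunc M' p.2.pt = trunc M' (.sat n k j b) :=
        eventually_snd (eventually_trunc M' ⟨.sat n k j b⟩)
      have h2 : ∀ᶠ p : Ag × Fan in 𝓝 (g, ⟨.sat n k j b⟩), p.1 n = g n :=
        eventually_fst (eventually_coord g n)
      filter_upwards [h1, h2] with p hp hp'
      have hb : trunc M' (.sat n k j b) = .sat n k j b := by
        simp only [trunc]
        rw [if_pos (by omega), if_pos (by omega)]
      rw [hb] at hp
      rw [trunc_eq_sat hp]
      simp only [actPt, hp']

/-- The type of a point: its orbit under `Ag`. -/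
def ty : Pt → Pt
  | .center => .center
  | .bar n k => .bar n k
  | .sat n k j _ => .sat n k j 0

theorem ty_act (g : Ag) (x : Pt) : ty (actPt g x) = ty x := by
  cases x <;> rfl

theorem exists_act_of_ty {x y : Fan} (h : ty x.pt = ty y.pt) : ∃ g : Ag, g • x = y := by
  rcases x with ⟨x⟩
  rcases y with ⟨y⟩
  cases x with
  | center => 
    cases y <;> simp [ty] at h
    exact ⟨1, one_smul _ _⟩
  | bar n k =>
    cases y <;> simp [ty] at h
    rw [h.1, h.2]
    exact ⟨1, one_smul _ _⟩
  | sat n k j b =>
    cases y with
    | center => simp [ty] at h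
    | bar => simp [ty] at h
    | sat n' k' j' b' =>
      simp only [ty, Pt.sat.injEq] at h
      obtain ⟨rfl, rfl, rfl, -⟩ := h
      refine ⟨fun _ => (show Hd from Multiplicative.ofAdd (Finsupp.single j (b' - b))), ?_⟩
      apply Fan.ext
      rw [smul_pt]
      simp only [actPt]
      congr 1
      show b + (Finsupp.single j (b' - b)) j = b'
      simp

end H139FS
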