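import Mathlib

/-!
The unrestricted wreath product of a topological group with `Sym(ℕ)` and its action on the
countable power of a space.
-/

namespace H139FS

open Set Filter Topology

/-- The wreath product `A wr Sym(ℕ)`. -/
@[ext] structure Wr (A : Type) : Type where
  a : ℕ → A
  σ : Equiv.Perm ℕ

namespace Wr

variable {A : Type} [Group A]

instance : Mul (Wr A) := ⟨fun g h => ⟨fun i => g.a i * h.a (g.σ⁻¹ i), g.σ * h.σ⟩⟩
instance : One (Wr A) := ⟨⟨fun _ => 1, 1⟩⟩
instance : Inv (Wr A) := ⟨fun g => ⟨fun i => (g.a (g.σ i))⁻¹, g.σ⁻¹⟩⟩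

theorem mul_a (g h : Wr A) (i : ℕ) : (g * h).a i = g.a i * h.a (g.σ⁻¹ i) := rfl
theorem mul_σ (g h : Wr A) : (g * h).σ = g.σ * h.σ := rfl
theorem one_a (i : ℕ) : (1 : Wr A).a i = 1 := rfl
theorem one_σ : (1 : Wr A).σ = 1 := rfl
theorem inv_a (g : Wr A) (i : ℕ) : (g⁻¹).a i = (g.a (g.σ i))⁻¹ := rfl
theorem inv_σ (g : Wr A) : (g⁻¹).σ = g.σ⁻¹ := rfl

instance : Group (Wr A) :=
  Group.ofLeftAxioms
    (by
      intro g h k
      ext i
      · simp only [mul_a, mul_σ, mul_assoc, mul_inv_rev, Equiv.Perm.mul_apply]
      · simp only [mul_σ, mul_assoc])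
    (by
      intro g
      ext i
      · simp [mul_a, one_a, one_σ]
      · simp [mul_σ, one_σ])
    (by
      intro g
      ext i
      · simp [mul_a, inv_a, inv_σ, one_a]
      · simp [mul_σ, inv_σ, one_σ])

variable [TopologicalSpace A]

omit [Group A] [TopologicalSpace A] in
def emb (g : Wr A) : (ℕ → A) × (ℕ → ℕ) × (ℕ → ℕ) := (g.a, (fun i => g.σ i), (fun i => g.σ⁻¹ i))

instance : TopologicalSpace (Wr A) := TopologicalSpace.induced emb inferInstance

omit [Group A] [TopologicalSpace A] in
theorem emb_injective : Function.Injective (emb : Wr A → _) := by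
  intro g h hgh
  simp only [emb, Prod.mk.injEq] at hgh
  ext i
  · rw [hgh.1]
  · exact congrArg (fun n : ℕ => n) (congrFun hgh.2.1 i)

omit [Group A] in
theorem isEmbedding_emb : IsEmbedding (emb : Wr A → _) := ⟨⟨rfl⟩, emb_injective⟩

instance [TopologicalSpace.MetrizableSpace A] : TopologicalSpace.MetrizableSpace (Wr A) := by
  have h1 : TopologicalSpace.MetrizableSpace (ℕ → A) := by
    let _ := TopologicalSpace.metrizableSpaceMetric A
    infer_instance
  exact isEmbedding_emb.metrizableSpace

omit [Group A] in
theorem continuous_a (i : ℕ) : Continuous fun g : Wr A => g.a i :=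
  (continuous_apply i).comp (continuous_fst.comp isEmbedding_emb.continuous)

omit [Group A] in
theorem continuous_σ (i : ℕ) : Continuous fun g : Wr A => g.σ i :=
  (continuous_apply i).comp (continuous_fst.comp (continuous_snd.comp isEmbedding_emb.continuous))

omit [Group A] in
theorem continuous_σinv (i : ℕ) : Continuous fun g : Wr A => g.σ⁻¹ i :=
  (continuous_apply i).comp (continuous_snd.comp (continuous_snd.comp isEmbedding_emb.continuous))

omit [Group A] in
theorem continuous_mk {Z : Type*} [TopologicalSpace Z] {f : Z → Wr A}
    (h1 : ∀ i, Continuous fun z => (f z).a i) (h2 : ∀ i, Continuous fun z => (f z).σ i)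
    (h3 : ∀ i, Continuous fun z => (f z).σ⁻¹ i) : Continuous f := by
  rw [isEmbedding_emb.continuous_iff]
  exact (continuous_pi h1).prodMk ((continuous_pi h2).prodMk (continuous_pi h3))

end Wr

/-- evaluation at a continuously varying index. -/
theorem continuous_eval {Z B : Type*} [TopologicalSpace Z] [TopologicalSpace B]
    {u : Z → ℕ → B} {v : Z → ℕ} (hu : ∀ i, Continuous fun z => u z i) (hv : Continuous v) :
    Continuous fun z => u z (v z) := by
  have h : Continuous fun p : Z × ℕ => u p.1 p.2 :=
    continuous_prod_of_discrete_right.mpr hu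
  exact h.comp (continuous_id.prodMk hv)

namespace Wr

variable {A : Type} [Group A] [TopologicalSpace A]

instance [IsTopologicalGroup A] : IsTopologicalGroup (Wr A) where
  continuous_mul := by
    apply continuous_mk
    · intro i
      simp only [mul_a]
      refine ((continuous_a i).comp continuous_fst).mul ?_
      exact continuous_eval (u := fun p : Wr A × Wr A => p.2.a)
        (fun j => (continuous_a j).comp continuous_snd) ((continuous_σinv i).comp continuous_fst)
    · intro i
      simp only [mul_σ, Equiv.Perm.mul_apply]
      exact continuous_eval (u := fun p : Wr A × Wr A => p.1.σ)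
        (fun j => (continuous_σ j).comp continuous_fst) ((continuous_σ i).comp continuous_snd)
    · intro i
      simp only [mul_σ, mul_inv_rev, Equiv.Perm.mul_apply]
      exact continuous_eval (u := fun p : Wr A × Wr A => (p.2.σ⁻¹ : Equiv.Perm ℕ))
        (fun j => (continuous_σinv j).comp continuous_snd) ((continuous_σinv i).comp continuous_fst)
  continuous_inv := by
    apply continuous_mk
    · intro i
      simp only [inv_a]
      exact (continuous_eval (u := fun p : Wr A => p.a) (fun j => continuous_a j)
        (continuous_σ i)).inv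
    · intro i
      simp only [inv_σ]
      exact continuous_σinv i
    · intro i
      simp only [inv_σ, inv_inv]
      exact continuous_σ i

variable {X : Type} [MulAction A X]

/-- action of the wreath product on the power. -/
def act (g : Wr A) (x : ℕ → X) : ℕ → X := fun i => g.a i • x (g.σ⁻¹ i)

omit [TopologicalSpace A] in
theorem one_act (x : ℕ → X) : act (1 : Wr A) x = x := by
  funext i
  simp [act, one_a, one_σ]

omit [TopologicalSpace A] in
theorem mul_act (g h : Wr A) (x : ℕ → X) : act (g * h) x = act g (act h x) := by
  funext i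
  simp [act, mul_a, mul_σ, mul_smul, mul_inv_rev]

theorem continuous_act [TopologicalSpace X] [ContinuousSMul A X] :
    Continuous fun p : Wr A × (ℕ → X) => act p.1 p.2 := by
  apply continuous_pi
  intro i
  refine ((continuous_a i).comp continuous_fst).smul ?_
  exact continuous_eval (u := fun p : Wr A × (ℕ → X) => p.2)
    (fun j => (continuous_apply j).comp continuous_snd) ((continuous_σinv i).comp continuous_fst)

end Wr

end H139FS
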