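import Mathlib
import Pool.Agent.H139R3.FS.Fan
import Pool.Agent.H139R3.FS.Wreath

/-!
The one-orbit action without equivariant compactification.
-/

namespace H139FS

open Set Filter Topology

/-- The group of the example. -/
abbrev GG : Type := Wr Ag

/-- The sequences in the fan in which every type of point occurs infinitely often. -/
def good (x : ℕ → Fan) : Prop := ∀ t : Pt, {i | ty (x i).pt = ty t}.Infinite

/-- The space of the example. -/
def XX : Type := {x : ℕ → Fan // good x}

instance : TopologicalSpace XX := inferInstanceAs (TopologicalSpace {x : ℕ → Fan // good x})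

instance : TopologicalSpace.MetrizableSpace (ℕ → Fan) := by
  let _ := TopologicalSpace.metrizableSpaceMetric Fan
  infer_instance

instance : TopologicalSpace.MetrizableSpace XX :=
  TopologicalSpace.MetrizableSpace.subtype {x : ℕ → Fan | good x}

theorem good_act (g : GG) {x : ℕ → Fan} (hx : good x) : good (Wr.act g x) := by
  intro t
  have h := (hx t).image (f := g.σ) g.σ.injective.injOn
  refine h.mono ?_
  rintro _ ⟨i, hi, rfl⟩
  show ty (Wr.act g x (g.σ i)).pt = ty t
  have h2 : g.σ⁻¹ (g.σ i) = i := by simp
  simp only [Wr.act, smul_pt, ty_act, h2]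
  exact hi

noncomputable instance : MulAction GG XX where
  smul g x := ⟨Wr.act g x.1, good_act g x.2⟩
  one_smul x := Subtype.ext (Wr.one_act x.1)
  mul_smul g h x := Subtype.ext (Wr.mul_act g h x.1)

theorem smul_val (g : GG) (x : XX) : (g • x).1 = Wr.act g x.1 := rfl

instance : ContinuousSMul GG XX where
  continuous_smul := by
    have h : Continuous fun p : GG × XX => Wr.act p.1 p.2.1 :=
      Wr.continuous_act.comp (continuous_fst.prodMk (continuous_subtype_val.comp continuous_snd))
    exact h.subtype_mk _

theorem exists_good : ∃ x : ℕ → Fan, good x := by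
  have : Countable Pt := by
    have hinj : Function.Injective (fun x : Pt => match x with
      | .center => ((0, 0, 0, 0) : ℕ × ℕ × ℕ × ZMod 2) 
      | .bar n k => (n + 1, k, 0, 0)
      | .sat n k j b => (n + 1, k, j + 1, b)) := by
      intro x y h
      cases x <;> cases y <;> simp_all
    exact hinj.countable
  have : Nonempty Pt := ⟨.center⟩
  obtain ⟨s, hs⟩ := exists_surjective_nat (Pt × ℕ)
  refine ⟨fun i => ⟨(s i).1⟩, fun t => ?_⟩
  have hinf : (range fun m : ℕ => (t, m)).Infinite :=
    infinite_range_of_injective (fun a b h => by simpa using h)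
  have h2 : (s ⁻¹' (range fun m : ℕ => (t, m))).Infinite := by
    intro hfin
    apply hinf
    have := hfin.image s
    rwa [image_preimage_eq _ hs] at this
  refine h2.mono ?_
  rintro i ⟨m, hm⟩
  simp only at hm
  show ty (s i).1 = ty t
  rw [← hm]

instance : Nonempty XX := ⟨⟨exists_good.choose, exists_good.choose_spec⟩⟩

instance : MulAction.IsPretransitive GG XX where
  exists_smul_eq := by
    rintro ⟨x, hx⟩ ⟨y, hy⟩
    have e : ∀ t : Pt, Nonempty ({i // ty (x i).pt = t} ≃ {i // ty (y i).pt = t}) := by
      intro t
      by_cases ht : ∃ s, ty s = t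
      · obtain ⟨s, rfl⟩ := ht
        have h1 : Infinite {i // ty (x i).pt = ty s} := (hx s).to_subtype
        have h2 : Infinite {i // ty (y i).pt = ty s} := (hy s).to_subtype
        exact nonempty_equiv_of_countable
      · have h1 : IsEmpty {i // ty (x i).pt = t} := ⟨fun i => ht ⟨_, i.2⟩⟩
        have h2 : IsEmpty {i // ty (y i).pt = t} := ⟨fun i => ht ⟨_, i.2⟩⟩
        exact ⟨Equiv.equivOfIsEmpty _ _⟩
    let σ : Equiv.Perm ℕ := Equiv.ofFiberEquiv (f := fun i => ty (x i).pt)
      (g := fun i => ty (y i).pt) (fun t => (e t).some)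
    have hσ : ∀ i, ty (y (σ i)).pt = ty (x i).pt := fun i =>
      Equiv.ofFiberEquiv_map (f := fun i => ty (x i).pt)
        (g := fun i => ty (y i).pt) (fun t => (e t).some) i
    have ha : ∀ i, ∃ a : Ag, a • x (σ⁻¹ i) = y i := by
      intro i
      apply exists_act_of_ty
      rw [← hσ]
      simp
    choose a ha using ha
    refine ⟨⟨a, σ⟩, Subtype.ext ?_⟩
    rw [smul_val]
    funext i
    exact ha i

end H139FS
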