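import Mathlib
import Pool.Agent.H139R3.FS.Main

/-!
No compactification: an equicontinuous function on the fan cannot separate the centre from the
first level.
-/

namespace H139FS

open Set Filter Topology

theorem tendsto_bar_center (n : ℕ → ℕ) :
    Tendsto (fun k => (⟨.bar (n k) k⟩ : Fan)) atTop (𝓝 ⟨.center⟩) := by
  apply tendsto_to_fan
  intro M
  filter_upwards [eventually_ge_atTop M] with k hk
  simp only [trunc]
  rw [if_neg (by omega)]

theorem tendsto_sat_bar (n k : ℕ) (b : ZMod 2) :
    Tendsto (fun j => (⟨.sat n k j b⟩ : Fan)) atTop (𝓝 ⟨.bar n (k + b.val)⟩) := by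
  apply tendsto_to_fan
  intro M
  filter_upwards [eventually_ge_atTop M] with j hj
  simp only [trunc]
  have : ¬ j < M := by omega
  simp only [this, if_false]

/-- The element of the group flipping the `j`-th satellites of the `n`-th bars. -/
noncomputable def flip (n j : ℕ) : Ag :=
  Function.update 1 n (show Hd from Multiplicative.ofAdd (Finsupp.single j 1))

theorem flip_smul (n k j : ℕ) : flip n j • (⟨.sat n k j 0⟩ : Fan) = ⟨.sat n k j 1⟩ := by
  apply Fan.ext
  rw [smul_pt]
  simp only [actPt, flip, Function.update_self]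
  congr 1
  show (0 : ZMod 2) + (Finsupp.single j 1) j = 1
  simp

theorem key {f : Fan → ℝ} (hf : Continuous f)
    (he : ∀ ε > 0, ∃ N : ℕ, ∀ a : Ag, (∀ n < N, a n = 1) → ∀ x, |f (a • x) - f x| < ε) :
    ∃ n, |f ⟨.bar n 0⟩ - f ⟨.center⟩| < 1 / 2 := by
  obtain ⟨K, hK⟩ : ∃ K : ℕ, ∀ n, |f ⟨.bar n K⟩ - f ⟨.center⟩| < 1 / 4 := by
    by_contra hcon
    push Not at hcon
    choose n hn using hcon
    have h1 : Tendsto (fun k => f ⟨.bar (n k) k⟩) atTop (𝓝 (f ⟨.center⟩)) :=
      (hf.tendsto _).comp (tendsto_bar_center n)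
    obtain ⟨k, hk⟩ := (Metric.tendsto_nhds.mp h1 (1 / 4) (by norm_num)).exists
    rw [Real.dist_eq] at hk
    exact absurd hk (not_lt.mpr (hn k))
  set ε : ℝ := 1 / (4 * (K + 1)) with hε
  have hKpos : (0 : ℝ) < 4 * (K + 1) := by positivity
  have hεpos : 0 < ε := by positivity
  obtain ⟨N, hN⟩ := he ε hεpos
  refine ⟨N, ?_⟩
  have hstep : ∀ k : ℕ, |f ⟨.bar N (k + 1)⟩ - f ⟨.bar N k⟩| ≤ ε := by
    intro k
    have h0 : Tendsto (fun j => f ⟨.sat N k j 0⟩) atTop (𝓝 (f ⟨.bar N k⟩)) :=
      (hf.tendsto _).comp (tendsto_sat_bar N k 0)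
    have h1 : Tendsto (fun j => f ⟨.sat N k j 1⟩) atTop (𝓝 (f ⟨.bar N (k + 1)⟩)) :=
      (hf.tendsto _).comp (tendsto_sat_bar N k 1)
    have h2 := (h1.sub h0).abs
    refine le_of_tendsto h2 (Eventually.of_forall fun j => ?_)
    have := hN (flip N j) (fun n hn => by
      simp [flip, Function.update_of_ne (by omega : n ≠ N)]) ⟨.sat N k j 0⟩
    rw [flip_smul] at this
    exact this.le
  have hsum : ∀ k : ℕ, |f ⟨.bar N 0⟩ - f ⟨.bar N k⟩| ≤ k * ε := by
    intro k
    induction k with
    | zero => simp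
    | succ k ih =>
      have h3 := abs_sub_le (f ⟨.bar N 0⟩) (f ⟨.bar N k⟩) (f ⟨.bar N (k + 1)⟩)
      have h4 := hstep k
      rw [abs_sub_comm] at h4
      push_cast
      linarith
  have h5 := abs_sub_le (f ⟨.bar N 0⟩) (f ⟨.bar N K⟩) (f ⟨.center⟩)
  have h6 := hsum K
  have h7 := hK N
  have h8 : (K : ℝ) * ε < 1 / 4 := by
    rw [hε, mul_one_div, div_lt_div_iff₀ hKpos (by norm_num)]
    linarith
  linarith

/-- The inclusion of the fan in the homogeneous space. -/
theorem good_update {c : ℕ → Fan} (hc : good c) (y : Fan) : good (Function.update c 0 y) := by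
  intro t
  refine ((hc t).sdiff (finite_singleton 0)).mono ?_
  rintro i ⟨hi, hi0⟩
  show ty (Function.update c 0 y i).pt = ty t
  rw [Function.update_of_ne hi0]
  exact hi

theorem not_embedding {Y : Type*} [TopologicalSpace Y] [CompactSpace Y] [T2Space Y]
    [MulAction GG Y] [ContinuousSMul GG Y] (ν : XX → Y) (hν : ∀ (g : GG) (x : XX), ν (g • x) = g • ν x) :
    ¬ IsEmbedding ν := by
  intro hemb
  obtain ⟨c, hc⟩ := exists_good
  let ι : Fan → XX := fun y => ⟨Function.update c 0 y, good_update hc y⟩
  have hιc : Continuous ι := by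
    refine Continuous.subtype_mk ?_ _
    exact continuous_const.update 0 continuous_id
  -- the open set
  let O : Set XX := {x | trunc 1 (x.1 0).pt = .center}
  have hO : IsOpen O := by
    have h1 : Continuous fun x : XX => trunc 1 (x.1 0).pt :=
      (continuous_trunc 1).comp ((continuous_apply 0).comp continuous_subtype_val)
    exact (isOpen_discrete ({Pt.center} : Set Pt)).preimage h1
  obtain ⟨W, hW, hWO⟩ := hemb.isOpen_iff.mp hO
  have hcenter : ν (ι ⟨.center⟩) ∈ W := by
    have : ι ⟨.center⟩ ∈ O := by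
      show trunc 1 (Function.update c 0 ⟨.center⟩ 0).pt = .center
      rw [Function.update_self]
      rfl
    rw [← hWO] at this
    exact this
  have hbar : ∀ n, ν (ι ⟨.bar n 0⟩) ∉ W := by
    intro n hn
    have h1 : ι ⟨.bar n 0⟩ ∈ ν ⁻¹' W := hn
    rw [hWO] at h1
    have h2 : trunc 1 (Function.update c 0 ⟨.bar n 0⟩ 0).pt = .center := h1
    rw [Function.update_self] at h2
    simp [trunc] at h2
  obtain ⟨F, hF0, hF1, -⟩ := exists_continuous_zero_one_of_isClosed
    (isClosed_singleton (x := ν (ι ⟨.center⟩))) hW.isClosed_compl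
    (by
      rw [disjoint_singleton_left]
      exact fun h => h hcenter)
  let f : Fan → ℝ := fun y => F (ν (ι y))
  have hf : Continuous f := F.continuous.comp (hemb.continuous.comp hιc)
  -- the first coordinate subgroup
  let j : Ag → GG := fun a => ⟨Function.update 1 0 a, 1⟩
  have hj : Continuous j := by
    apply Wr.continuous_mk
    · intro i
      have : Continuous fun a : Ag => Function.update (1 : ℕ → Ag) 0 a :=
        continuous_const.update 0 continuous_id
      exact (continuous_apply i).comp this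
    · intro i
      exact continuous_const
    · intro i
      exact continuous_const
  have hj1 : j 1 = 1 := by
    apply Wr.ext
    · show Function.update (1 : ℕ → Ag) 0 1 = 1
      exact Function.update_eq_self_iff.mpr rfl
    · rfl
  have hjι : ∀ (a : Ag) (y : Fan), j a • ι y = ι (a • y) := by
    intro a y
    apply Subtype.ext
    rw [smul_val]
    funext i
    show Function.update (1 : ℕ → Ag) 0 a i • (Function.update c 0 y) ((1⁻¹ : Equiv.Perm ℕ) i) =
      Function.update c 0 (a • y) i
    by_cases hi : i = 0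
    · subst hi
      simp
    · simp [Function.update_of_ne hi]
  have he : ∀ ε > 0, ∃ N : ℕ, ∀ a : Ag, (∀ n < N, a n = 1) → ∀ x, |f (a • x) - f x| < ε := by
    intro ε hε
    have h1 : ∀ᶠ g in 𝓝 (1 : GG), ∀ y ∈ (univ : Set Y), |F (g • y) - F y| < ε := by
      refine isCompact_univ.eventually_forall_of_forall_eventually
        (P := fun (g : GG) (y : Y) => |F (g • y) - F y| < ε) ?_
      intro y _
      have h2 : Continuous fun p : GG × Y => |F (p.1 • p.2) - F p.2| := by
        have := F.continuous
        fun_prop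
      have h3 := h2.tendsto ((1 : GG), y)
      refine h3.eventually_lt_const ?_
      simp [hε]
    have h2 : ∀ᶠ a in 𝓝 (1 : Ag), ∀ y : Y, |F (j a • y) - F y| < ε := by
      have h3 : Tendsto j (𝓝 1) (𝓝 1) := by
        have := hj.tendsto 1
        rwa [hj1] at this
      filter_upwards [h3.eventually h1] with a ha y
      exact ha y (mem_univ _)
    by_contra hcon
    push Not at hcon
    choose a ha x hx using hcon
    have h4 : Tendsto a atTop (𝓝 1) := by
      rw [tendsto_pi_nhds]
      intro n
      rw [nhds_discrete Hd, tendsto_pure]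
      filter_upwards [eventually_gt_atTop n] with N hN
      exact ha N n hN
    obtain ⟨N, hN⟩ := (h4.eventually h2).exists
    have h5 := hN (ν (ι (x N)))
    rw [← hν, hjι] at h5
    exact absurd h5 (not_lt.mpr (hx N))
  obtain ⟨n, hn⟩ := key hf he
  have h1 : f ⟨.bar n 0⟩ = 1 := hF1 (hbar n)
  have h0 : f ⟨.center⟩ = 0 := hF0 rfl
  rw [h1, h0] at hn
  norm_num at hn

end H139FS
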