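import Mathlib
import Pool.Agent.H139R3.FS.Key

/-!
The group is Polish and the space is separable.
-/

namespace H139FS

open Set Filter Topology

theorem Wr.isClosed_range {A : Type} [TopologicalSpace A] :
    IsClosed (range (Wr.emb : Wr A → _)) := by
  have h : range (Wr.emb : Wr A → _) =
      {p : (ℕ → A) × (ℕ → ℕ) × (ℕ → ℕ) | ∀ i, p.2.1 (p.2.2 i) = i ∧ p.2.2 (p.2.1 i) = i} := by
    ext p
    constructor
    · rintro ⟨g, rfl⟩ i
      constructor
      · show g.σ (g.σ⁻¹ i) = i
        simp
      · show g.σ⁻¹ (g.σ i) = i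
        simp
    · intro hp
      refine ⟨⟨p.1, ⟨p.2.1, p.2.2, fun i => (hp i).2, fun i => (hp i).1⟩⟩, ?_⟩
      rfl
  rw [h]
  have h1 : ∀ i, Continuous fun p : (ℕ → A) × (ℕ → ℕ) × (ℕ → ℕ) => p.2.1 i := fun i =>
    (continuous_apply i).comp (continuous_fst.comp continuous_snd)
  have h2 : ∀ i, Continuous fun p : (ℕ → A) × (ℕ → ℕ) × (ℕ → ℕ) => p.2.2 i := fun i =>
    (continuous_apply i).comp (continuous_snd.comp continuous_snd)
  simp only [Set.ofPred_forall, Set.ofPred_and]
  refine isClosed_iInter fun i => ?_
  refine IsClosed.inter ?_ ?_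
  · exact isClosed_eq (continuous_eval (u := fun p : (ℕ → A) × (ℕ → ℕ) × (ℕ → ℕ) => p.2.1) h1 (h2 i))
      continuous_const
  · exact isClosed_eq (continuous_eval (u := fun p : (ℕ → A) × (ℕ → ℕ) × (ℕ → ℕ) => p.2.2) h2 (h1 i))
      continuous_const

instance {A : Type} [TopologicalSpace A] [PolishSpace A] : PolishSpace (Wr A) :=
  (IsClosedEmbedding.mk Wr.isEmbedding_emb Wr.isClosed_range).polishSpace

instance : Countable Hd := by
  have h1 : Countable (ZMod 2) := Finite.to_countable
  have h2 : Countable (ℕ →₀ ZMod 2) := inferInstance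
  exact h2

instance : PolishSpace GG := by
  have h1 : PolishSpace Hd := inferInstance
  have h2 : PolishSpace Ag := inferInstance
  infer_instance

instance : Countable Pt := by
  have hinj : Function.Injective (fun x : Pt => match x with
    | .center => ((0, 0, 0, 0) : ℕ × ℕ × ℕ × ZMod 2) 
    | .bar n k => (n + 1, k, 0, 0)
    | .sat n k j b => (n + 1, k, j + 1, b)) := by
    intro x y h
    cases x <;> cases y <;> simp_all
  exact hinj.countable

instance : SecondCountableTopology Fan := Fan.isEmbedding_emb.secondCountableTopology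

instance : SecondCountableTopology XX :=
  (IsEmbedding.subtypeVal (p := good)).secondCountableTopology

end H139FS
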